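import Pool.Agent.helper67.GV.Spec

set_option autoImplicit false

open Finset Filter Topology

namespace Pool.Agent.helper67.GV

open Pool.Agent.helper21.GR

theorem H1A_b (hLEX : LEX_stmt) (K : Type) [Fintype K] [DecidableEq K] (cap : K → ℕ) (j : K) (V : Type)
    [DecidableEq V] (r : V → V → Prop) (S S₁ Q : Finset V) (y : V → ℕ) (b : ℕ)
    (hS₁ : S₁ ⊆ S) (hQ : Q ⊆ S) (hdis : ∀ v ∈ S₁, v ∉ Q)
    (h1 : ∀ v ∈ S₁, ∀ u ∈ S, u ≠ v → ¬ r v u ∧ ¬ r u v)
    (hQc : ∀ u ∈ Q, ∀ v ∈ Q, u ≠ v → ¬ r u v) (hQs : ∑ v ∈ Q, y v = b)
    (hB : Bd (fun u v => ¬ r u v) S y (cap j)) :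
    ∑ v ∈ S₁, Fc (Function.update cap j (y v)) + Fc (Function.update cap j b) ≤ Fc cap := by
  have key := hLEX K (Option V) (fun _ _ => j) ⟨fun _ _ => rfl, fun _ _ _ _ _ _ => Or.inl rfl⟩
    (insertNone S₁) (fun o => Function.update cap j (o.elim b y)) cap (by
      intro l P hP hc
      by_cases hl : l = j
      · subst hl
        have hsum : ∑ v ∈ P, (Function.update cap l (v.elim b y)) l = ∑ v ∈ P, v.elim b y := by
          apply sum_congr rfl
          intro v _
          rw [Function.update_self]
        show ∑ v ∈ P, (Function.update cap l (v.elim b y)) l ≤ cap l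
        rw [hsum]
        have hle : ∑ v ∈ P, v.elim b y ≤ ∑ v ∈ insertNone (eraseNone P), v.elim b y := by
          apply sum_le_sum_of_subset
          intro v hv
          rcases v with _ | v
          · exact none_mem_insertNone
          · rw [some_mem_insertNone, mem_eraseNone]
            exact hv
        refine hle.trans ?_
        rw [Finset.sum_insertNone]
        show b + ∑ v ∈ eraseNone P, y v ≤ cap l
        have hsub : eraseNone P ⊆ S₁ := by
          intro v hv
          have := hP (mem_eraseNone.1 hv)
          exact some_mem_insertNone.1 this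
        have hdj : Disjoint Q (eraseNone P) := by
          rw [disjoint_left]
          intro v hv hv'
          exact hdis v (hsub hv') hv
        rw [← hQs, ← sum_union hdj]
        apply hB
        · exact union_subset hQ (hsub.trans hS₁)
        · intro u hu v hv huv
          rcases mem_union.1 hu with hu | hu
          · rcases mem_union.1 hv with hv | hv
            · exact hQc u hu v hv huv
            · exact (h1 v (hsub hv) u (hQ hu) huv).2
          · rcases mem_union.1 hv with hv | hv
            · exact (h1 u (hsub hu) v (hQ hv) (Ne.symm huv)).1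
            · exact (h1 u (hsub hu) v (hS₁ (hsub hv)) (Ne.symm huv)).1
      · have hc1 : P.card ≤ 1 := by
          rw [card_le_one]
          intro u hu v hv
          by_contra huv
          exact hl (hc u hu v hv huv).symm
        have hterm : ∀ v ∈ P, (Function.update cap j (v.elim b y)) l = cap l := by
          intro v _
          rw [Function.update_of_ne hl]
        show ∑ v ∈ P, (Function.update cap j (v.elim b y)) l ≤ cap l
        rw [sum_congr rfl hterm, sum_const, smul_eq_mul]
        exact (Nat.mul_le_mul_right _ hc1).trans (by rw [one_mul]))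
  rw [Finset.sum_insertNone] at key
  rw [add_comm]
  exact key

theorem H1A (hCRD : CRD_stmt) (hLEX : LEX_stmt) (hRAM : RAM_stmt) : H1A_stmt := by
  intro K _ _ T hT cap j A V _ r hsym hcj hA S x y hx hy hBx hBy
  obtain ⟨hram, hK0, -⟩ := hRAM T hT
  classical
  have h1 : ∀ v ∈ S.filter (fun v => x v = A), ∀ u ∈ S, u ≠ v → ¬ r v u ∧ ¬ r u v := by
    intro v hv u hu huv
    rw [mem_filter] at hv
    have hnot : ¬ r v u := by
      intro hr
      have := hBx {v, u} (by
        intro w hw
        rcases mem_insert.1 hw with rfl | hw
        · exact hv.1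
        · rw [mem_singleton.1 hw]; exact hu) (by
        intro p hp q hq hpq
        rcases mem_insert.1 hp with rfl | hp
        · rcases mem_insert.1 hq with rfl | hq
          · exact absurd rfl hpq
          · rw [mem_singleton.1 hq]; exact hr
        · rw [mem_singleton.1 hp]
          rcases mem_insert.1 hq with rfl | hq
          · exact hsym _ _ hr
          · exact absurd ((mem_singleton.1 hp).trans (mem_singleton.1 hq).symm) hpq)
      rw [sum_pair (Ne.symm huv)] at this
      have := hx u
      omega
    exact ⟨hnot, fun h => hnot (hsym _ _ h)⟩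
  obtain ⟨b, hb, Q, hQ, hQc, hQs⟩ := exists_max (fun u v => ¬ r u v) (S.filter (fun v => ¬ x v = A)) y
  have hb2 := H1A_b hLEX K cap j V r S (S.filter (fun v => x v = A)) Q y b (filter_subset _ _)
    (hQ.trans (filter_subset _ _)) (by
      intro v hv hvQ
      exact (mem_filter.1 (hQ hvQ)).2 (mem_filter.1 hv).2) h1 hQc hQs hBy
  have ha : ∑ v ∈ S.filter (fun v => ¬ x v = A), K0 T ^ (x v - 1) * Fc (Function.update cap j (y v)) ≤
      K0 T ^ (A - 1) * Fc (Function.update cap j b) := by
    rcases (S.filter (fun v => ¬ x v = A)).eq_empty_or_nonempty with he | ⟨v0, hv0⟩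
    · rw [he, sum_empty]
      exact Nat.zero_le _
    · have hA2 : 2 ≤ A := by
        have h2 := Bd.single hBx (mem_filter.1 hv0).1
        have h3 := (mem_filter.1 hv0).2
        have h4 := hx v0
        omega
      have hterm : ∀ v ∈ S.filter (fun v => ¬ x v = A),
          K0 T ^ (x v - 1) * Fc (Function.update cap j (y v)) ≤
          K0 T ^ (A - 2) * Fc (Function.update cap j b) := by
        intro v hv
        apply Nat.mul_le_mul
        · apply Nat.pow_le_pow_right hK0
          have h2 := Bd.single hBx (mem_filter.1 hv).1
          have h3 := (mem_filter.1 hv).2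
          omega
        · apply (hCRD K (Function.update cap j (y v))).2.2.2
          intro l
          by_cases hl : l = j
          · subst hl
            rw [Function.update_self, Function.update_self]
            exact Bd.single hb hv
          · rw [Function.update_of_ne hl, Function.update_of_ne hl]
      have hcard : (S.filter (fun v => ¬ x v = A)).card ≤ K0 T :=
        hram V r hsym _ (((hBx.mono (filter_subset _ _)).one hx).le hA)
          (((hBy.mono (filter_subset _ _)).one hy).le hcj)
      calc _ ≤ ∑ v ∈ S.filter (fun v => ¬ x v = A), K0 T ^ (A - 2) * Fc (Function.update cap j b) :=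
            sum_le_sum hterm
        _ = (S.filter (fun v => ¬ x v = A)).card * (K0 T ^ (A - 2) * Fc (Function.update cap j b)) := by
            rw [sum_const, smul_eq_mul]
        _ ≤ K0 T * (K0 T ^ (A - 2) * Fc (Function.update cap j b)) := Nat.mul_le_mul_right _ hcard
        _ = K0 T ^ (A - 1) * Fc (Function.update cap j b) := by
            rw [← mul_assoc, ← pow_succ', show A - 2 + 1 = A - 1 by omega]
  rw [← sum_filter_add_sum_filter_not S (fun v => x v = A)]
  have hc : ∑ v ∈ S.filter (fun v => x v = A), K0 T ^ (x v - 1) * Fc (Function.update cap j (y v)) =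
      K0 T ^ (A - 1) * ∑ v ∈ S.filter (fun v => x v = A), Fc (Function.update cap j (y v)) := by
    rw [mul_sum]
    apply sum_congr rfl
    intro v hv
    rw [(mem_filter.1 hv).2]
  rw [hc]
  calc _ ≤ K0 T ^ (A - 1) * ∑ v ∈ S.filter (fun v => x v = A), Fc (Function.update cap j (y v)) +
        K0 T ^ (A - 1) * Fc (Function.update cap j b) := Nat.add_le_add_left ha _
    _ = K0 T ^ (A - 1) * (∑ v ∈ S.filter (fun v => x v = A), Fc (Function.update cap j (y v)) +
        Fc (Function.update cap j b)) := by rw [mul_add]
    _ ≤ _ := Nat.mul_le_mul_left _ hb2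

end Pool.Agent.helper67.GV
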